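import Pool.Agent.Lib.MP_329f2d_lc.H59Fin
import Pool.Agent.Lib.MP_329f2d_lc.H38F

/-!
From a supercompact cardinal, a countable transitive model of ZFC in which the subcomplete forcing
axiom holds and there is a Kurepa tree.
-/

namespace Pool.Agent.Results.MP_329f2d_lc.KurepaModel

open Pool.Agent.Lib.MP_329f2d_lc

theorem result (k : Cardinal.{0}) (hk : Supercompact k) :
    ∃ W : V, (W : Set V).Countable ∧ ZFC W ∧ SCFA W ∧ Kurepa W :=
  final_of_pkg (It.pkg_univ hk)

end Pool.Agent.Results.MP_329f2d_lc.KurepaModel
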